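import Pool.Agent.MP_6a4325_al.H62.Base2

/-!
Row HALL1: the calculus of steps.
-/

set_option autoImplicit false

namespace Pool.Agent.MP_6a4325_al.H8

open Pool.Agent.MP_6a4325_al.H62

section Supp

variable {k G : Type} [Field k] [Group G] {A : Subgroup G}

theorem supp_zero : Supp A (0 : MonoidAlgebra k G) := fun g hg => by simp at hg

theorem supp_single {a : G} (ha : a ∈ A) (c : k) : Supp A (MonoidAlgebra.single a c) :=
  fun g hg => by
    rw [MonoidAlgebra.coeff_single] at hg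
    rw [Finset.mem_singleton.1 (Finsupp.support_single_subset hg)]
    exact ha

theorem supp_one : Supp A (1 : MonoidAlgebra k G) := supp_single A.one_mem 1

theorem supp_add {x y : MonoidAlgebra k G} (hx : Supp A x) (hy : Supp A y) : Supp A (x + y) :=
  fun g hg => by
    classical
    rw [MonoidAlgebra.coeff_add] at hg
    rcases Finset.mem_union.1 (Finsupp.support_add hg) with h | h
    exacts [hx g h, hy g h]

theorem supp_smul (c : k) {x : MonoidAlgebra k G} (hx : Supp A x) : Supp A (c • x) :=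
  fun g hg => by
    rw [MonoidAlgebra.coeff_smul] at hg
    exact hx g (Finsupp.support_smul hg)

theorem supp_sub {x y : MonoidAlgebra k G} (hx : Supp A x) (hy : Supp A y) : Supp A (x - y) := by
  have := supp_add hx (supp_smul (-1) hy)
  rwa [neg_one_smul, ← sub_eq_add_neg] at this

theorem supp_mul {x y : MonoidAlgebra k G} (hx : Supp A x) (hy : Supp A y) : Supp A (x * y) :=
  fun g hg => by
    classical
    obtain ⟨a, ha, b, hb, rfl⟩ := Finset.mem_mul.1 (MonoidAlgebra.support_coeff_mul_subset x y hg)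
    exact A.mul_mem (hx a ha) (hy b hb)

theorem supp_ind {P : MonoidAlgebra k G → Prop} (h0 : P 0)
    (h1 : ∀ a ∈ A, ∀ c : k, P (MonoidAlgebra.single a c))
    (h2 : ∀ x y, P x → P y → P (x + y)) {x : MonoidAlgebra k G} (hx : Supp A x) : P x := by
  rw [← x.sum_coeff_single]
  exact Finset.sum_induction _ P h2 h0 fun a ha => h1 a (hx a ha) _

theorem evc_zero (ψ : G → k) (g : G) : evc ψ g (0 : MonoidAlgebra k G) = 0 := by simp [evc]

theorem evc_single (ψ : G → k) (g a : G) (c : k) :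
    evc ψ g (MonoidAlgebra.single a c) = c * ψ (g * a * g⁻¹) := by
  rw [evc, MonoidAlgebra.coeff_single]
  exact Finsupp.sum_single_index (zero_smul k (ψ (g * a * g⁻¹)))

theorem evc_add (ψ : G → k) (g : G) (x y : MonoidAlgebra k G) :
    evc ψ g (x + y) = evc ψ g x + evc ψ g y := by
  rw [evc, MonoidAlgebra.coeff_add]
  exact Finsupp.sum_add_index' (fun a => zero_smul k (ψ (g * a * g⁻¹)))
    fun a c d => add_smul c d (ψ (g * a * g⁻¹))

theorem evc_smul (ψ : G → k) (g : G) (c : k) (x : MonoidAlgebra k G) :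
    evc ψ g (c • x) = c * evc ψ g x := by
  induction x using MonoidAlgebra.induction_linear with
  | zero => rw [smul_zero, evc_zero, mul_zero]
  | add x y hx hy => rw [smul_add, evc_add, evc_add, hx, hy, mul_add]
  | single a d => rw [MonoidAlgebra.smul_single, evc_single, evc_single, smul_eq_mul, mul_assoc]

theorem evc_mul (hA : A.Normal) {ψ : G → k} (hψ : IsCh A ψ) (g : G) {x y : MonoidAlgebra k G}
    (hx : Supp A x) (hy : Supp A y) : evc ψ g (x * y) = evc ψ g x * evc ψ g y := by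
  refine supp_ind (P := fun x => evc ψ g (x * y) = evc ψ g x * evc ψ g y) ?_ (fun a ha c => ?_)
    (fun x x' h h' => ?_) hx
  · rw [zero_mul, evc_zero, zero_mul]
  · refine supp_ind (P := fun y => evc ψ g (MonoidAlgebra.single a c * y) =
      evc ψ g (MonoidAlgebra.single a c) * evc ψ g y) ?_ (fun b hb d => ?_) (fun y y' h h' => ?_) hy
    · rw [mul_zero, evc_zero, mul_zero]
    · rw [MonoidAlgebra.single_mul_single, evc_single, evc_single, evc_single,
        show g * (a * b) * g⁻¹ = (g * a * g⁻¹) * (g * b * g⁻¹) by group,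
        hψ.2 _ (hA.conj_mem a ha g) _ (hA.conj_mem b hb g)]
      ring
    · rw [mul_add, evc_add, evc_add, h, h', mul_add]
  · rw [add_mul, evc_add, evc_add, h, h', add_mul]

theorem evc_one {ψ : G → k} (hψ : IsCh A ψ) (g : G) : evc ψ g (1 : MonoidAlgebra k G) = 1 := by
  rw [MonoidAlgebra.one_def, evc_single, mul_one, mul_inv_cancel, hψ.1, mul_one]

theorem supp_mul_ne (hc : Cm A A) (ht : Tf A) {x y : MonoidAlgebra k G} (hx : Supp A x)
    (hy : Supp A y) (x0 : x ≠ 0) (y0 : y ≠ 0) : x * y ≠ 0 := by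
  classical
  let B : Subgroup G := Subgroup.closure (↑(x.coeff.support ∪ y.coeff.support) : Set G)
  have hB : B ≤ A := (Subgroup.closure_le _).2 fun g hg => by
    rcases Finset.mem_union.1 hg with h | h
    exacts [hx g h, hy g h]
  have hcB : Cm B B := fun a ha b hb => hc a (hB ha) b (hB hb)
  let := hcB.commGroup
  have : Group.FG B := (Group.fg_iff_subgroup_fg _).2 ⟨_, rfl⟩
  have : Monoid.FG B := Group.fg_iff_monoid_fg.1 inferInstance
  have : IsMulTorsionFree B := ⟨fun n hn a b e => by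
    have h1 : (a * b⁻¹) ^ n = 1 := by
      rw [mul_pow, inv_pow]
      exact mul_inv_eq_one.2 e
    have h2 : ((a * b⁻¹ : B) : G) = 1 := ht _ (hB (a * b⁻¹).2)
      (isOfFinOrder_iff_pow_eq_one.2 ⟨n, Nat.pos_of_ne_zero hn, congrArg Subtype.val h1⟩)
    exact mul_inv_eq_one.1 (Subtype.ext h2)⟩
  have hi : Function.Injective B.subtype := B.subtype_injective
  have e1 : MonoidAlgebra.mapDomain B.subtype (MonoidAlgebra.comapDomain B.subtype hi x) = x :=
    MonoidAlgebra.mapDomain_comapDomain (fun g hg =>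
      ⟨⟨g, Subgroup.subset_closure (Finset.mem_union_left _ hg)⟩, rfl⟩) hi
  have e2 : MonoidAlgebra.mapDomain B.subtype (MonoidAlgebra.comapDomain B.subtype hi y) = y :=
    MonoidAlgebra.mapDomain_comapDomain (fun g hg =>
      ⟨⟨g, Subgroup.subset_closure (Finset.mem_union_right _ hg)⟩, rfl⟩) hi
  intro e
  rw [← e1, ← e2, ← MonoidAlgebra.mapDomain_mul, ← MonoidAlgebra.mapDomain_zero B.subtype] at e
  rcases mul_eq_zero.1 (MonoidAlgebra.mapDomain_injective hi e) with h | h
  · exact x0 (by rw [← e1, h, MonoidAlgebra.mapDomain_zero])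
  · exact y0 (by rw [← e2, h, MonoidAlgebra.mapDomain_zero])

end Supp

section Act

variable {k G M : Type} [Field k] [Group G] [AddCommGroup M] [Module k M]
  {ρ : Representation k G M} {A : Subgroup G}

theorem act_single (ρ : Representation k G M) (a : G) (c : k) (u : M) :
    ρ.asAlgebraHom (MonoidAlgebra.single a c) u = c • ρ a u := by
  rw [Representation.asAlgebraHom_single]; rfl

theorem act_mul (ρ : Representation k G M) (x y : MonoidAlgebra k G) (u : M) :
    ρ.asAlgebraHom (x * y) u = ρ.asAlgebraHom x (ρ.asAlgebraHom y u) := by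
  rw [map_mul]; rfl

theorem act_mem {U : Submodule k M} (hU : InvS ρ A U) {x : MonoidAlgebra k G} (hx : Supp A x)
    {u : M} (hu : u ∈ U) : ρ.asAlgebraHom x u ∈ U := by
  refine supp_ind (P := fun x => ρ.asAlgebraHom x u ∈ U) ?_ (fun a ha c => ?_)
    (fun x y h h' => ?_) hx
  · rw [map_zero]; exact zero_mem _
  · rw [act_single]; exact U.smul_mem c (hU a ha u hu)
  · rw [map_add]; exact add_mem h h'

theorem act_comm (hc : Cm A A) {x : MonoidAlgebra k G} (hx : Supp A x) {a : G} (ha : a ∈ A)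
    (u : M) : ρ.asAlgebraHom x (ρ a u) = ρ a (ρ.asAlgebraHom x u) := by
  refine supp_ind (P := fun x => ρ.asAlgebraHom x (ρ a u) = ρ a (ρ.asAlgebraHom x u)) ?_
    (fun b hb c => ?_) (fun x y h h' => ?_) hx
  · simp
  · rw [act_single, act_single, map_smul, ← rep_mul, ← rep_mul, hc a ha b hb]
  · rw [map_add, LinearMap.add_apply, LinearMap.add_apply, h, h', map_add]

theorem mem_mps {ψ : G → k} {U : Submodule k M} {a : G} (ha : a ∈ A) {u : M} (hu : u ∈ U) :
    ρ a u - ψ a • u ∈ mps ρ A ψ U := Submodule.subset_span ⟨a, ha, u, hu, rfl⟩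

theorem mps_le {ψ : G → k} {U V : Submodule k M}
    (h : ∀ a ∈ A, ∀ u ∈ U, ρ a u - ψ a • u ∈ V) : mps ρ A ψ U ≤ V :=
  Submodule.span_le.2 fun _ ⟨a, ha, u, hu, e⟩ => e ▸ h a ha u hu

theorem mps_mono (ψ : G → k) {U V : Submodule k M} (h : U ≤ V) : mps ρ A ψ U ≤ mps ρ A ψ V :=
  mps_le fun _ ha _ hu => mem_mps ha (h hu)

theorem mps_le_self (ψ : G → k) {U : Submodule k M} (hU : InvS ρ A U) : mps ρ A ψ U ≤ U :=
  mps_le fun a ha u hu => sub_mem (hU a ha u hu) (U.smul_mem _ hu)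

theorem act_sub_mem (ψ : G → k) {U : Submodule k M} {x : MonoidAlgebra k G} (hx : Supp A x)
    {u : M} (hu : u ∈ U) : ρ.asAlgebraHom x u - evc ψ 1 x • u ∈ mps ρ A ψ U := by
  refine supp_ind (P := fun x => ρ.asAlgebraHom x u - evc ψ 1 x • u ∈ mps ρ A ψ U) ?_
    (fun a ha c => ?_) (fun x y h h' => ?_) hx
  · simp [evc_zero]
  · rw [act_single, evc_single, one_mul, inv_one, mul_one, mul_smul, ← smul_sub]
    exact Submodule.smul_mem _ c (mem_mps ha hu)
  · rw [map_add, LinearMap.add_apply, evc_add, add_smul, add_sub_add_comm]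
    exact add_mem h h'

theorem invS_sup {X Y : Submodule k M} (hX : InvS ρ A X) (hY : InvS ρ A Y) :
    InvS ρ A (X ⊔ Y) := fun g hg u hu => by
  obtain ⟨x, hx, y, hy, rfl⟩ := Submodule.mem_sup.1 hu
  rw [map_add]
  exact Submodule.add_mem_sup (hX g hg x hx) (hY g hg y hy)

theorem mem_genS_single {w u : M} (hu : u ∈ genS ρ A {w}) :
    ∃ s : MonoidAlgebra k G, Supp A s ∧ u = ρ.asAlgebraHom s w := by
  induction hu using Submodule.span_induction with
  | mem x hx =>
    obtain ⟨g, hg, t, rfl, rfl⟩ := hx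
    exact ⟨_, supp_single hg 1, by rw [act_single, one_smul]⟩
  | zero => exact ⟨0, supp_zero, by simp⟩
  | add x y _ _ hx hy =>
    obtain ⟨s, hs, rfl⟩ := hx
    obtain ⟨t, ht, rfl⟩ := hy
    exact ⟨s + t, supp_add hs ht, by rw [map_add]; rfl⟩
  | smul c x _ hx =>
    obtain ⟨s, hs, rfl⟩ := hx
    exact ⟨c • s, supp_smul c hs, by rw [map_smul]; rfl⟩

theorem good_refl (ψ : G → k) (V : Submodule k M) : Good ρ A ψ V V :=
  ⟨inf_le_right, fun _ u hu => ⟨1, one_ne_zero, supp_one, by rw [map_one]; exact hu⟩⟩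

theorem sub_of_pure {ψ : G → k} {V'' V' V : Submodule k M} (h1 : V'' ≤ V')
    (hp : V' ⊓ mps ρ A ψ V ≤ mps ρ A ψ V') (h : V' ≤ V'' ⊔ mps ρ A ψ V) :
    V' ≤ V'' ⊔ mps ρ A ψ V' := fun w hw => by
  obtain ⟨v, hv, m, hm, rfl⟩ := Submodule.mem_sup.1 (h hw)
  refine Submodule.add_mem_sup hv (hp ⟨?_, hm⟩)
  have := sub_mem hw (h1 hv)
  rwa [add_sub_cancel_left] at this

theorem good_trans (hc : Cm A A) (ht : Tf A) {ψ : G → k} {V'' V' V : Submodule k M}
    (h1 : V'' ≤ V') (h2 : V' ≤ V) (g1 : Good ρ A ψ V'' V') (g2 : Good ρ A ψ V' V) :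
    Good ρ A ψ V'' V := by
  refine ⟨fun y hy => g1.1 ⟨hy.1, g2.1 ⟨h1 hy.1, hy.2⟩⟩, fun h u hu => ?_⟩
  obtain ⟨x, x0, hx, hxu⟩ := g2.2 (h.trans (sup_le_sup_right h1 _)) u hu
  obtain ⟨y, y0, hy, hyu⟩ := g1.2 (sub_of_pure h1 g2.1 (h2.trans h)) _ hxu
  exact ⟨y * x, supp_mul_ne hc ht hy hx y0 x0, supp_mul hy hx, by rw [act_mul]; exact hyu⟩

theorem good_union (hc : Cm A A) (ht : Tf A) {ψ : G → k} {W : ℕ → Submodule k M}
    (hm : Monotone W) (h : ∀ n, Good ρ A ψ (W n) (W (n + 1))) :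
    Good ρ A ψ (W 0) (⨆ n, W n) := by
  have h1 : ∀ m n, m ≤ n → Good ρ A ψ (W m) (W n) := fun m n hmn => by
    induction n, hmn using Nat.le_induction with
    | base => exact good_refl ψ _
    | succ n hmn ih => exact good_trans hc ht (hm hmn) (hm n.le_succ) ih (h n)
  have h2 : mps ρ A ψ (⨆ n, W n) ≤ ⨆ n, mps ρ A ψ (W n) := mps_le fun a ha u hu => by
    obtain ⟨n, hn⟩ := (Submodule.mem_iSup_of_directed _ hm.directed_le).1 hu
    exact Submodule.mem_iSup_of_mem n (mem_mps ha hn)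
  have hm' : Monotone fun n => mps ρ A ψ (W n) := fun a b hab => mps_mono ψ (hm hab)
  have h3 : ∀ m, W m ⊓ mps ρ A ψ (⨆ n, W n) ≤ mps ρ A ψ (W m) := fun m y hy => by
    obtain ⟨n, hn⟩ := (Submodule.mem_iSup_of_directed _ hm'.directed_le).1 (h2 hy.2)
    exact (h1 m (max m n) (le_max_left _ _)).1 ⟨hy.1, hm' (le_max_right m n) hn⟩
  refine ⟨h3 0, fun hh u hu => ?_⟩
  obtain ⟨n, hn⟩ := (Submodule.mem_iSup_of_directed _ hm.directed_le).1 hu
  exact (h1 0 n n.zero_le).2
    (sub_of_pure (hm n.zero_le) (h3 n) ((le_iSup W n).trans hh)) u hn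

theorem mps_map (hA : A.Normal) (ψ : G → k) (V : Submodule k M) (g : G) :
    mps ρ A (fun a => ψ (g⁻¹ * a * g)) (V.map (ρ g)) = (mps ρ A ψ V).map (ρ g) := by
  refine le_antisymm (mps_le ?_) (Submodule.map_le_iff_le_comap.2 (mps_le fun a ha u hu => ?_))
  · rintro a ha _ ⟨u, hu, rfl⟩
    refine ⟨_, mem_mps (hA.conj_mem' a ha g) hu, ?_⟩
    rw [map_sub, map_smul, rep_mul, rep_mul, rep_inv']
  · have := mem_mps (ρ := ρ) (ψ := fun a => ψ (g⁻¹ * a * g)) (hA.conj_mem a ha g)
      (Submodule.mem_map_of_mem (f := ρ g) hu)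
    rw [show g⁻¹ * (g * a * g⁻¹) * g = a by group, rep_mul, rep_inv, rep_mul] at this
    rw [Submodule.mem_comap, map_sub, map_smul]
    exact this

theorem rep_inj (ρ : Representation k G M) (g : G) : Function.Injective (ρ g) :=
  Function.LeftInverse.injective (rep_inv ρ g)

theorem good_map (hA : A.Normal) {ψ : G → k} {V' V : Submodule k M} (g : G)
    (h : Good ρ A ψ V' V) :
    Good ρ A (fun a => ψ (g⁻¹ * a * g)) (V'.map (ρ g)) (V.map (ρ g)) := by
  refine ⟨?_, fun hh => ?_⟩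
  · rw [mps_map hA, mps_map hA, ← Submodule.map_inf _ (rep_inj ρ g)]
    exact Submodule.map_mono h.1
  · rw [mps_map hA, ← Submodule.map_sup,
      Submodule.map_le_map_iff_of_injective (rep_inj ρ g)] at hh
    rintro _ ⟨u, hu, rfl⟩
    obtain ⟨x, x0, hx, hxu⟩ := h.2 hh u hu
    refine ⟨MonoidAlgebra.single g 1 * x * MonoidAlgebra.single g⁻¹ 1, fun e => x0 ?_, ?_,
      _, hxu, ?_⟩
    · have := congrArg (fun z => MonoidAlgebra.single g⁻¹ (1 : k) * z * MonoidAlgebra.single g 1) e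
      simpa [mul_assoc, MonoidAlgebra.single_mul_single, ← MonoidAlgebra.one_def,
        ← mul_assoc (MonoidAlgebra.single g⁻¹ (1 : k))] using this
    · refine supp_ind (P := fun x => Supp A (MonoidAlgebra.single g 1 * x *
        MonoidAlgebra.single g⁻¹ 1)) ?_ (fun a ha c => ?_) (fun x y h h' => ?_) hx
      · rw [mul_zero, zero_mul]; exact supp_zero
      · rw [MonoidAlgebra.single_mul_single, MonoidAlgebra.single_mul_single]
        exact supp_single (hA.conj_mem a ha g) _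
      · rw [mul_add, add_mul]; exact supp_add h h'
    · rw [act_mul, act_mul, act_single, act_single, one_smul, one_smul, rep_inv]

theorem step_trans (hc : Cm A A) (ht : Tf A) {ψ : G → k} {K U V : Submodule k M} (h1 : K ≤ U)
    (h2 : U ≤ V) (s1 : StepH ρ A ψ K U) (s2 : StepH ρ A ψ U V) : StepH ρ A ψ K V :=
  fun X hX h => good_trans hc ht (sup_le_sup_left h1 X) (sup_le_sup_left h2 X)
    (s1 X hX ((inf_le_inf_left X h2).trans h)) (s2 X hX (h.trans h1))

theorem step_one (hA : A.Normal) (hc : Cm A A) {K : Submodule k M} (hK : InvS ρ A K) (w : M) :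
    ∃ μ : MonoidAlgebra k G, μ ≠ 0 ∧ Supp A μ ∧ ∀ ψ : G → k, IsCh A ψ → evc ψ 1 μ ≠ 0 →
      StepH ρ A ψ K (K ⊔ genS ρ A {w}) := by
  have dec : ∀ X : Submodule k M, ∀ u ∈ X ⊔ (K ⊔ genS ρ A {w}), ∃ v ∈ X ⊔ K,
      ∃ s : MonoidAlgebra k G, Supp A s ∧ u = v + ρ.asAlgebraHom s w := fun X u hu => by
    rw [← sup_assoc] at hu
    obtain ⟨v, hv, z, hz, rfl⟩ := Submodule.mem_sup.1 hu
    obtain ⟨s, hs, rfl⟩ := mem_genS_single hz
    exact ⟨v, hv, s, hs, rfl⟩
  by_cases h : ∃ μ : MonoidAlgebra k G, μ ≠ 0 ∧ Supp A μ ∧ ρ.asAlgebraHom μ w ∈ K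
  · obtain ⟨μ, m0, hμ, hw⟩ := h
    refine ⟨μ, m0, hμ, fun ψ _ hψ X hX _ => ?_⟩
    have hV := invS_sup hX hK
    have h1 : ∀ u ∈ genS ρ A {w}, ρ.asAlgebraHom μ u ∈ K := fun u hu =>
      genS_le (U := K.comap (ρ.asAlgebraHom μ)) (fun a ha z hz => by
        rw [Submodule.mem_comap, act_comm hc hμ ha]
        exact hK a ha _ hz) (fun t ht => by rw [Set.mem_singleton_iff.1 ht]; exact hw) hu
    have h2 : ∀ u ∈ X ⊔ (K ⊔ genS ρ A {w}), ρ.asAlgebraHom μ u ∈ X ⊔ K := fun u hu => by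
      rw [← sup_assoc] at hu
      obtain ⟨v, hv, z, hz, rfl⟩ := Submodule.mem_sup.1 hu
      rw [map_add]
      exact add_mem (act_mem hV hμ hv) (Submodule.mem_sup_right (h1 z hz))
    refine ⟨fun y hy => ?_, fun _ u hu => ⟨μ, m0, hμ, h2 u hu⟩⟩
    have h3 : ρ.asAlgebraHom μ y ∈ mps ρ A ψ (X ⊔ K) :=
      mps_le (V := (mps ρ A ψ (X ⊔ K)).comap (ρ.asAlgebraHom μ)) (fun a ha u hu => by
        rw [Submodule.mem_comap, map_sub, map_smul, act_comm hc hμ ha]
        exact mem_mps ha (h2 u hu)) hy.2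
    have h4 := sub_mem h3 (act_sub_mem (ρ := ρ) ψ hμ hy.1)
    rw [sub_sub_cancel] at h4
    exact (Submodule.smul_mem_iff _ hψ).1 h4
  · refine ⟨1, one_ne_zero, supp_one, fun ψ hψ _ X hX hXK => ?_⟩
    have hV := invS_sup hX hK
    have h1 : ∀ r : MonoidAlgebra k G, Supp A r → ρ.asAlgebraHom r w ∈ X ⊔ K → r = 0 :=
      fun r hr hrw => by
        by_contra r0
        obtain ⟨x, hx, κ, hκ, e⟩ := Submodule.mem_sup.1 hrw
        have h2 : x ∈ K := hXK ⟨hx, by
          rw [eq_sub_of_add_eq e]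
          exact sub_mem (Submodule.mem_sup_right (act_mem (invS_genS ρ A _) hr (mem_genS ρ A rfl)))
            (Submodule.mem_sup_left hκ)⟩
        exact h ⟨r, r0, hr, e ▸ add_mem h2 hκ⟩
    have h2 : ∀ y ∈ mps ρ A ψ (X ⊔ (K ⊔ genS ρ A {w})), ∃ y' ∈ mps ρ A ψ (X ⊔ K),
        ∃ r : MonoidAlgebra k G, Supp A r ∧ evc ψ 1 r = 0 ∧ y = y' + ρ.asAlgebraHom r w :=
      fun y hy => by
        induction hy using Submodule.span_induction with
        | mem x hx =>
          obtain ⟨a, ha, u, hu, rfl⟩ := hx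
          obtain ⟨v, hv, s, hs, rfl⟩ := dec X u hu
          refine ⟨_, mem_mps ha hv, MonoidAlgebra.single a 1 * s + (-ψ a) • s,
            supp_add (supp_mul (supp_single ha 1) hs) (supp_smul _ hs), ?_, ?_⟩
          · rw [evc_add, evc_smul, evc_mul hA hψ 1 (supp_single ha 1) hs, evc_single, one_mul,
              one_mul, inv_one, mul_one, neg_mul, add_neg_cancel]
          · rw [map_add (ρ.asAlgebraHom), map_smul, LinearMap.add_apply, LinearMap.smul_apply,
              act_mul, act_single, one_smul, map_add, smul_add, neg_smul]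
            abel
        | zero => exact ⟨0, zero_mem _, 0, supp_zero, evc_zero _ _, by simp⟩
        | add x y _ _ hx hy =>
          obtain ⟨x', hx', r, hr, er, rfl⟩ := hx
          obtain ⟨y', hy', s, hs, es, rfl⟩ := hy
          refine ⟨_, add_mem hx' hy', r + s, supp_add hr hs, by rw [evc_add, er, es, add_zero], ?_⟩
          rw [map_add, LinearMap.add_apply]
          abel
        | smul c x _ hx =>
          obtain ⟨x', hx', r, hr, er, rfl⟩ := hx
          refine ⟨_, Submodule.smul_mem _ c hx', c • r, supp_smul c hr,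
            by rw [evc_smul, er, mul_zero], ?_⟩
          rw [map_smul, LinearMap.smul_apply, smul_add]
    refine ⟨fun y hy => ?_, fun hh => ?_⟩
    · obtain ⟨y', hy', r, hr, _, rfl⟩ := h2 y hy.2
      have h3 := sub_mem hy.1 (mps_le_self ψ hV hy')
      rw [add_sub_cancel_left] at h3
      rw [h1 r hr h3, map_zero, LinearMap.zero_apply, add_zero]
      exact hy'
    · exfalso
      obtain ⟨v, hv, y, hy, e⟩ := Submodule.mem_sup.1
        (hh (Submodule.mem_sup_right (Submodule.mem_sup_right (mem_genS ρ A rfl))))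
      obtain ⟨y', hy', r, hr, er, rfl⟩ := h2 y hy
      have h3 : ρ.asAlgebraHom (1 - r) w ∈ X ⊔ K := by
        rw [map_sub, map_one, LinearMap.sub_apply, Module.End.one_apply]
        have : w - ρ.asAlgebraHom r w = v + y' := by
          rw [sub_eq_iff_eq_add, add_assoc]; exact e.symm
        rw [this]
        exact add_mem hv (mps_le_self ψ hV hy')
      rw [← sub_eq_zero.1 (h1 _ (supp_sub supp_one hr) h3), evc_one hψ] at er
      exact one_ne_zero er

theorem genS_insert (T : Set M) (w : M) :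
    genS ρ A (insert w T) = genS ρ A T ⊔ genS ρ A {w} := by
  refine le_antisymm (genS_le (invS_sup (invS_genS ρ A _) (invS_genS ρ A _)) fun t ht => ?_)
    (sup_le (genS_le (invS_genS ρ A _) fun t ht => mem_genS ρ A (Set.mem_insert_of_mem _ ht))
      (genS_le (invS_genS ρ A _) fun t ht => mem_genS ρ A (Or.inl ht)))
  rcases ht with ht | ht
  exacts [Submodule.mem_sup_right (mem_genS ρ A ht), Submodule.mem_sup_left (mem_genS ρ A ht)]

end Act

theorem hall1 : SHall1 := by
  intro k G M _ _ _ _ ρ A hA hc ht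
  refine ⟨fun ψ K U V h1 h2 _ _ _ s1 s2 => step_trans hc ht h1 h2 s1 s2,
    fun ψ V hm _ hs X hX h => ?_, fun ψ K U Y h1 hY h2 s X hX h => ?_,
    fun ψ K U g s X hX h => ?_, fun K T hK => ?_, fun x y hx hy x0 y0 =>
      ⟨supp_mul_ne hc ht hx hy x0 y0, supp_mul hx hy, fun ψ hψ g => evc_mul hA hψ g hx hy⟩⟩
  · rw [sup_iSup]
    exact good_union hc ht (W := fun n => X ⊔ V n) (fun a b hab => sup_le_sup_left (hm hab) X)
      fun n => hs n X hX (((inf_le_inf_left X (le_iSup V (n + 1))).trans h).trans (hm n.zero_le))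
  · rw [← sup_assoc, ← sup_assoc]
    refine s _ (invS_sup hX hY) fun u hu => ?_
    obtain ⟨x, hx, y, hy, e⟩ := Submodule.mem_sup.1 hu.1
    have h3 : x ∈ Y ⊔ K := h ⟨hx, by
      rw [eq_sub_of_add_eq e]
      exact sub_mem (Submodule.mem_sup_right hu.2) (Submodule.mem_sup_left hy)⟩
    obtain ⟨y', hy', κ, hκ, rfl⟩ := Submodule.mem_sup.1 h3
    have h4 : y' + y ∈ K := h2 ⟨add_mem hy' hy, by
      have := sub_mem hu.2 (h1 hκ)
      rwa [← e, show y' + κ + y - κ = y' + y by abel] at this⟩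
    rw [← e, show y' + κ + y = y' + y + κ by abel]
    exact add_mem h4 hκ
  · have e : (X.map (ρ g⁻¹)).map (ρ g) = X := by
      rw [← Submodule.map_comp, ← Module.End.mul_eq_comp, ← map_mul, mul_inv_cancel, map_one,
        Module.End.one_eq_id, Submodule.map_id]
    have h1 := good_map hA g (s (X.map (ρ g⁻¹)) (by
      rintro a ha _ ⟨x, hx, rfl⟩
      refine ⟨_, hX _ (hA.conj_mem a ha g) x hx, ?_⟩
      rw [rep_mul, rep_mul, rep_inv]) (by
      rw [← Submodule.map_le_map_iff_of_injective (rep_inj ρ g),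
        Submodule.map_inf _ (rep_inj ρ g), e]
      exact h))
    rwa [Submodule.map_sup, Submodule.map_sup, e] at h1
  · classical
    induction T using Finset.induction_on with
    | empty =>
      refine ⟨1, one_ne_zero, supp_one, fun ψ _ _ X _ _ => ?_⟩
      rw [sup_eq_left.2 (genS_le hK fun t ht => by simp at ht)]
      exact good_refl ψ _
    | insert w T _ ih =>
      obtain ⟨μ, m0, hμ, s1⟩ := ih
      obtain ⟨ν, n0, hν, s2⟩ := step_one hA hc (invS_sup hK (invS_genS ρ A ↑T)) w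
      refine ⟨μ * ν, supp_mul_ne hc ht hμ hν m0 n0, supp_mul hμ hν, fun ψ hψ h => ?_⟩
      rw [evc_mul hA hψ 1 hμ hν] at h
      rw [Finset.coe_insert, genS_insert, ← sup_assoc]
      exact step_trans hc ht le_sup_left le_sup_left (s1 ψ hψ (left_ne_zero_of_mul h))
        (s2 ψ hψ (right_ne_zero_of_mul h))

end Pool.Agent.MP_6a4325_al.H8
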